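import Mathlib

/-!
# MP_5df5df_gt: two successive X-rays fail for all sheared bodies of revolution, in all dimensions

Let `B` be any convex body of revolution about the axis `ℝ u` in Euclidean `n`-space, `n ≥ 2`. Its
images under the shears along `u` have the X-ray of `B` in the direction `u`. Whatever direction `v`
a procedure chooses after it has seen this X-ray, every sheared copy of `B`, except those whose
shear vector lies in one hyperplane, shares its X-rays in the directions `u` and `v` with another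
convex body.
-/

set_option autoImplicit false

open MeasureTheory Set
open scoped InnerProductSpace ENNReal

namespace Pool.Agent.Results.MP_5df5df_gt.BodiesOfRevolution

/-- Euclidean `n`-space. -/
abbrev E (n : ℕ) : Type := EuclideanSpace ℝ (Fin n)

variable {n : ℕ}

/-- A convex body: a compact convex set with nonempty interior. -/
def IsBody (K : Set (E n)) : Prop :=
  Convex ℝ K ∧ IsCompact K ∧ (interior K).Nonempty

/-- The X-ray of `K` in the direction `u`: the length of the intersection of `K` with the line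
through `x` parallel to `u` (for a unit vector `u`). -/
noncomputable def xray (u : E n) (K : Set (E n)) (x : E n) : ℝ≥0∞ :=
  volume {t : ℝ | x + t • u ∈ K}

/-- `B` is a set of revolution about the axis `ℝ u` (`‖u‖ = 1`): whether a point belongs to `B`
depends only on its height `⟪x, u⟫` and its norm, equivalently on the height and the distance from
the axis. -/
def Revolution (u : E n) (B : Set (E n)) : Prop :=
  ∀ x y : E n, ⟪x, u⟫_ℝ = ⟪y, u⟫_ℝ → ‖x‖ = ‖y‖ → x ∈ B → y ∈ B

/-- The sheared copy of `B`: the set of all `x` with `x - ⟪p, x⟫ u` in `B`, that is the image of `B`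
under `y ↦ y + ⟪p, y⟫ u` if `p` is orthogonal to `u`. -/
def shear (u p : E n) (B : Set (E n)) : Set (E n) := {x : E n | x - ⟪p, x⟫_ℝ • u ∈ B}

/-- the shear as a linear equivalence -/
noncomputable def shE (u p : E n) (h : ⟪p, u⟫_ℝ = 0) : E n ≃ₗ[ℝ] E n where
  toFun x := x - ⟪p, x⟫_ℝ • u
  map_add' x y := by simp only [inner_add_right, add_smul]; abel
  map_smul' c x := by simp only [inner_smul_right, RingHom.id_apply, smul_sub, mul_smul]
  invFun y := y + ⟪p, y⟫_ℝ • u
  left_inv x := by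
    simp only [inner_sub_right, inner_smul_right, h]
    module
  right_inv y := by
    simp only [inner_add_right, inner_smul_right, h]
    module

theorem shear_body (u p : E n) (h : ⟪p, u⟫_ℝ = 0) (B : Set (E n)) (hB : IsBody B) :
    IsBody (shear u p B) := by
  let e : E n ≃L[ℝ] E n := (shE u p h).toContinuousLinearEquiv
  have hs : shear u p B = e ⁻¹' B := rfl
  rw [hs]
  refine ⟨hB.1.linear_preimage (shE u p h).toLinearMap, ?_, ?_⟩
  · exact e.toHomeomorph.isCompact_preimage.mpr hB.2.1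
  · have h1 := e.toHomeomorph.preimage_interior B
    have h2 : (e ⁻¹' interior B).Nonempty := hB.2.2.preimage e.surjective
    have h3 : interior (e ⁻¹' B) = e ⁻¹' interior B := h1.symm
    rw [h3]
    exact h2

/-- the X-ray in the direction of the shear does not change -/
theorem xray_shear (u p : E n) (h : ⟪p, u⟫_ℝ = 0) (B : Set (E n)) :
    xray u (shear u p B) = xray u B := by
  funext x
  have hset : {t : ℝ | x + t • u ∈ shear u p B} =
      (fun t : ℝ => t + (-⟪p, x⟫_ℝ)) ⁻¹' {t : ℝ | x + t • u ∈ B} := by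
    ext t
    show x + t • u - ⟪p, x + t • u⟫_ℝ • u ∈ B ↔ x + (t + (-⟪p, x⟫_ℝ)) • u ∈ B
    have : x + t • u - ⟪p, x + t • u⟫_ℝ • u = x + (t + (-⟪p, x⟫_ℝ)) • u := by
      simp only [inner_add_right, inner_smul_right, h]
      module
    rw [this]
  simp only [xray]
  rw [hset, measure_preimage_add_right]

/-- two shears related by the reflection belonging to the second direction -/
theorem xray_reflect (u a p : E n) (β s : ℝ) (hu : ‖u‖ = 1) (ha : a ≠ 0) (hau : ⟪a, u⟫_ℝ = 0)
    (hpa : ⟪p, a + β • u⟫_ℝ = β + s * ‖a‖ ^ 2) (B : Set (E n))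
    (hB : Revolution u B) :
    xray (a + β • u) (shear u (p - (2 * s) • a) B) = xray (a + β • u) (shear u p B) := by
  funext x
  have hA : ‖a‖ ^ 2 ≠ 0 := by
    have := norm_ne_zero_iff.mpr ha
    positivity
  have huu : ⟪u, u⟫_ℝ = 1 := by rw [real_inner_self_eq_norm_sq, hu]; norm_num
  have haa : ⟪a, a⟫_ℝ = ‖a‖ ^ 2 := real_inner_self_eq_norm_sq a
  set A : ℝ := ‖a‖ ^ 2 with hAdef
  set ξ : ℝ := ⟪a, x⟫_ℝ / A with hξ
  have hax : ⟪a, x⟫_ℝ = A * ξ := by rw [hξ]; field_simp
  have hp'v : ⟪p - (2 * s) • a, a + β • u⟫_ℝ = β - s * A := by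
    rw [inner_sub_left, hpa]
    simp only [inner_smul_left, inner_add_right, inner_smul_right, haa, hau]
    simp
    ring
  -- the point on the line after the shear
  have hc : ∀ (q : E n) (t : ℝ), x + t • (a + β • u) - ⟪q, x + t • (a + β • u)⟫_ℝ • u =
      x + t • a + (t * β - ⟪q, x⟫_ℝ - t * ⟪q, a + β • u⟫_ℝ) • u := by
    intro q t
    simp only [inner_add_right, inner_smul_right]
    module
  have hin : ∀ (t h : ℝ), ⟪x + t • a + h • u, u⟫_ℝ = ⟪x, u⟫_ℝ + h := by
    intro t h
    simp only [inner_add_left, inner_smul_left, hau, huu]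
    simp
  have hno : ∀ (t h : ℝ), ‖x + t • a + h • u‖ ^ 2 =
      ‖x‖ ^ 2 + A * (t * (t + 2 * ξ)) + 2 * h * ⟪x, u⟫_ℝ + h ^ 2 := by
    intro t h
    rw [← real_inner_self_eq_norm_sq, ← real_inner_self_eq_norm_sq x]
    have hua : ⟪u, a⟫_ℝ = 0 := by rw [real_inner_comm]; exact hau
    simp only [inner_add_left, inner_add_right, inner_smul_left, inner_smul_right, hau, huu, haa,
      hax, hua, real_inner_comm a x, real_inner_comm u x]
    simp
    ring
  have key : ∀ t : ℝ, x + t • (a + β • u) ∈ shear u (p - (2 * s) • a) B ↔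
      x + (-t + (-2 * ξ)) • (a + β • u) ∈ shear u p B := by
    intro t
    show x + t • (a + β • u) - ⟪p - (2 * s) • a, x + t • (a + β • u)⟫_ℝ • u ∈ B ↔
      x + (-t + (-2 * ξ)) • (a + β • u) - ⟪p, x + (-t + (-2 * ξ)) • (a + β • u)⟫_ℝ • u ∈ B
    rw [hc, hc, hp'v, hpa]
    have h1 : t * β - ⟪p - (2 * s) • a, x⟫_ℝ - t * (β - s * A) =
        (-t + (-2 * ξ)) * β - ⟪p, x⟫_ℝ - (-t + (-2 * ξ)) * (β + s * A) := by
      rw [inner_sub_left, inner_smul_left, hax]
      simp
      ring
    rw [h1]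
    have h2 : ‖x + t • a + ((-t + (-2 * ξ)) * β - ⟪p, x⟫_ℝ - (-t + (-2 * ξ)) * (β + s * A)) • u‖ =
        ‖x + (-t + (-2 * ξ)) • a +
          ((-t + (-2 * ξ)) * β - ⟪p, x⟫_ℝ - (-t + (-2 * ξ)) * (β + s * A)) • u‖ := by
      rw [← sq_eq_sq₀ (norm_nonneg _) (norm_nonneg _), hno, hno]
      ring
    constructor
    · exact hB _ _ (by rw [hin, hin]) h2
    · exact hB _ _ (by rw [hin, hin]) h2.symm
  have hset : {t : ℝ | x + t • (a + β • u) ∈ shear u (p - (2 * s) • a) B} =
      Neg.neg ⁻¹' ((fun t : ℝ => t + (-2 * ξ)) ⁻¹' {t : ℝ | x + t • (a + β • u) ∈ shear u p B}) := by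
    ext t
    exact key t
  simp only [xray]
  rw [hset, Measure.measure_preimage_neg, measure_preimage_add_right]

/-- different shears give different bodies -/
theorem shear_ne (u p q : E n) (hu : ‖u‖ = 1) (hp : ⟪p, u⟫_ℝ = 0) (hq : ⟪q, u⟫_ℝ = 0)
    (hpq : p ≠ q) (B : Set (E n)) (hB : IsBody B) : shear u q B ≠ shear u p B := by
  intro heq
  have hd : p - q ≠ 0 := sub_ne_zero.mpr hpq
  have hdu : ⟪p - q, u⟫_ℝ = 0 := by rw [inner_sub_left, hp, hq, sub_zero]
  -- `B` is closed under the shear with vector `p - q`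
  have hcl : ∀ z ∈ B, z + ⟪p - q, z⟫_ℝ • u ∈ B := by
    intro z hz
    have h1 : z + ⟪p, z⟫_ℝ • u ∈ shear u p B := by
      show z + ⟪p, z⟫_ℝ • u - ⟪p, z + ⟪p, z⟫_ℝ • u⟫_ℝ • u ∈ B
      have : z + ⟪p, z⟫_ℝ • u - ⟪p, z + ⟪p, z⟫_ℝ • u⟫_ℝ • u = z := by
        simp only [inner_add_right, inner_smul_right, hp]
        module
      rwa [this]
    rw [← heq] at h1
    have h2 : z + ⟪p, z⟫_ℝ • u - ⟪q, z + ⟪p, z⟫_ℝ • u⟫_ℝ • u = z + ⟪p - q, z⟫_ℝ • u := by
      simp only [inner_add_right, inner_smul_right, hq, inner_sub_left]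
      module
    rw [← h2]
    exact h1
  have hit : ∀ z ∈ B, ∀ k : ℕ, z + ((k : ℝ) * ⟪p - q, z⟫_ℝ) • u ∈ B := by
    intro z hz k
    induction k with
    | zero => simpa using hz
    | succ k ih =>
      have h1 := hcl _ ih
      have h2 : z + ((k : ℝ) * ⟪p - q, z⟫_ℝ) • u +
          ⟪p - q, z + ((k : ℝ) * ⟪p - q, z⟫_ℝ) • u⟫_ℝ • u =
          z + (((k + 1 : ℕ) : ℝ) * ⟪p - q, z⟫_ℝ) • u := by
        simp only [inner_add_right, inner_smul_right, hdu]
        push_cast
        module
      rwa [h2] at h1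
  obtain ⟨R, hR⟩ := hB.2.1.isBounded.subset_closedBall (0 : E n)
  have hz0 : ∀ z ∈ B, ⟪p - q, z⟫_ℝ = 0 := by
    intro z hz
    by_contra hne
    obtain ⟨k, hk⟩ := exists_nat_gt ((‖z‖ + R) / |⟪p - q, z⟫_ℝ|)
    have hpos : 0 < |⟪p - q, z⟫_ℝ| := abs_pos.mpr hne
    rw [div_lt_iff₀ hpos] at hk
    have h1 := hR (hit z hz k)
    rw [mem_closedBall_zero_iff] at h1
    have h2 : ‖((k : ℝ) * ⟪p - q, z⟫_ℝ) • u‖ ≤ ‖z + ((k : ℝ) * ⟪p - q, z⟫_ℝ) • u‖ + ‖z‖ := by
      calc ‖((k : ℝ) * ⟪p - q, z⟫_ℝ) • u‖ =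
            ‖(z + ((k : ℝ) * ⟪p - q, z⟫_ℝ) • u) - z‖ := by congr 1; abel
        _ ≤ _ := norm_sub_le _ _
    rw [norm_smul, hu, mul_one, Real.norm_eq_abs, abs_mul, Nat.abs_cast] at h2
    linarith
  obtain ⟨z, hz⟩ := hB.2.2
  obtain ⟨ε, hε, hball⟩ := Metric.isOpen_iff.mp isOpen_interior z hz
  have hnd : 0 < ‖p - q‖ := norm_pos_iff.mpr hd
  have hz2 : z + (ε / (2 * ‖p - q‖)) • (p - q) ∈ B := by
    apply interior_subset
    apply hball
    rw [Metric.mem_ball, dist_eq_norm, add_sub_cancel_left, norm_smul, Real.norm_eq_abs,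
      abs_of_pos (by positivity)]
    have : ε / (2 * ‖p - q‖) * ‖p - q‖ = ε / 2 := by field_simp
    rw [this]
    linarith
  have h1 := hz0 z (interior_subset hz)
  have h2 := hz0 _ hz2
  rw [inner_add_right, h1, inner_smul_right, real_inner_self_eq_norm_sq] at h2
  have h3 : 0 < ε / (2 * ‖p - q‖) * ‖p - q‖ ^ 2 := by positivity
  linarith

theorem exists_perp (hn : 2 ≤ n) (u : E n) : ∃ e : E n, e ≠ 0 ∧ ⟪e, u⟫_ℝ = 0 := by
  classical
  have hdim : Module.finrank ℝ (E n) = n := by simp
  have h1 : Module.finrank ℝ (Submodule.span ℝ ({u} : Set (E n))) ≤ 1 :=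
    (finrank_span_le_card _).trans (by simp)
  have hne : (Submodule.span ℝ ({u} : Set (E n)))ᗮ ≠ ⊥ := by
    intro hbot
    have := Submodule.finrank_add_finrank_orthogonal (Submodule.span ℝ ({u} : Set (E n)))
    rw [hbot, hdim] at this
    simp at this
    omega
  obtain ⟨w, hw, hw0⟩ := Submodule.exists_mem_ne_zero_of_ne_bot hne
  refine ⟨w, hw0, ?_⟩
  have : ⟪u, w⟫_ℝ = 0 := hw u (Submodule.mem_span_singleton_self u)
  rw [real_inner_comm, this]

/-- **Theorem.** Let `n ≥ 2`, let `B` be a convex body of revolution about the axis `ℝ u` in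
Euclidean `n`-space and let `F` be a rule which chooses the second direction `v = F (X_u B)` from
the first X-ray. All sheared copies of `B` are convex bodies with the X-ray of `B` in the direction
`u`, and for all shear vectors `p` orthogonal to `u` outside the hyperplane `⟪p, v⟫ = ⟪u, v⟫` there
is another convex body with the same X-rays in the directions `u` and `v`. Such `p` exist. In
particular no procedure with two X-rays successively determines all convex bodies of `n`-space. -/
theorem result (hn : 2 ≤ n) (u : E n) (hu : ‖u‖ = 1) (F : (E n → ℝ≥0∞) → E n)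
    (hF : ∀ f, ‖F f‖ = 1) (B : Set (E n)) (hB : IsBody B) (hrev : Revolution u B) :
    (∀ p : E n, ⟪p, u⟫_ℝ = 0 →
      IsBody (shear u p B) ∧ xray u (shear u p B) = xray u B ∧
      (⟪p, F (xray u B)⟫_ℝ ≠ ⟪u, F (xray u B)⟫_ℝ →
        ∃ K' : Set (E n), IsBody K' ∧ K' ≠ shear u p B ∧ xray u K' = xray u (shear u p B) ∧
          xray (F (xray u B)) K' = xray (F (xray u B)) (shear u p B))) ∧
    (∃ p : E n, ⟪p, u⟫_ℝ = 0 ∧ ⟪p, F (xray u B)⟫_ℝ ≠ ⟪u, F (xray u B)⟫_ℝ) := by
  set v : E n := F (xray u B) with hv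
  have hvn : ‖v‖ = 1 := hF _
  have huu : ⟪u, u⟫_ℝ = 1 := by rw [real_inner_self_eq_norm_sq, hu]; norm_num
  set β : ℝ := ⟪u, v⟫_ℝ with hβ
  obtain ⟨a, ha⟩ : ∃ a : E n, a = v - β • u := ⟨_, rfl⟩
  have hau : ⟪a, u⟫_ℝ = 0 := by
    rw [ha, inner_sub_left, inner_smul_left, huu, real_inner_comm]
    simp [hβ]
  have hva : v = a + β • u := by rw [ha]; abel
  have hpv : ∀ p : E n, ⟪p, u⟫_ℝ = 0 → ⟪p, v⟫_ℝ = ⟪p, a⟫_ℝ := by
    intro p hp
    rw [hva, inner_add_right, inner_smul_right, hp, mul_zero, add_zero]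
  by_cases h0 : a = 0
  · -- the second direction is parallel to the first
    obtain ⟨e, he, heu⟩ := exists_perp hn u
    have hvu : v = β • u := by rw [hva, h0, zero_add]
    have hβ2 : β ^ 2 = 1 := by
      have : ‖v‖ ^ 2 = 1 := by rw [hvn]; norm_num
      rw [hvu, norm_smul, hu, mul_one, Real.norm_eq_abs, sq_abs] at this
      exact this
    have hxv : ∀ K : Set (E n), xray v K = xray u K := by
      intro K
      funext x
      have hβ3 : β = 1 ∨ β = -1 := by
        have : (β - 1) * (β + 1) = 0 := by linear_combination hβ2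
        rcases mul_eq_zero.1 this with h | h
        · left; linarith
        · right; linarith
      rcases hβ3 with h | h
      · simp only [xray, hvu, h, one_smul]
      · simp only [xray, hvu, h]
        have : {t : ℝ | x + t • (-1 : ℝ) • u ∈ K} = Neg.neg ⁻¹' {t : ℝ | x + t • u ∈ K} := by
          ext t
          simp
        rw [this, Measure.measure_preimage_neg]
    refine ⟨fun p hp => ⟨shear_body u p hp B hB, xray_shear u p hp B, fun _ => ?_⟩, ?_⟩
    · have hp' : ⟪p + e, u⟫_ℝ = 0 := by rw [inner_add_left, hp, heu, add_zero]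
      refine ⟨shear u (p + e) B, shear_body u _ hp' B hB, ?_, ?_, ?_⟩
      · refine shear_ne u p (p + e) hu hp hp' ?_ B hB
        intro h
        exact he (by simpa using h.symm)
      · rw [xray_shear u _ hp', xray_shear u _ hp]
      · rw [hxv, hxv, xray_shear u _ hp', xray_shear u _ hp]
    · refine ⟨0, inner_zero_left _, ?_⟩
      rw [inner_zero_left]
      intro h
      rw [← h] at hβ2
      norm_num at hβ2
  · -- the second direction is not parallel to the first
    have hA : 0 < ‖a‖ ^ 2 := by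
      have := norm_pos_iff.mpr h0
      positivity
    refine ⟨fun p hp => ⟨shear_body u p hp B hB, xray_shear u p hp B, fun hne => ?_⟩, ?_⟩
    · obtain ⟨s, hs⟩ : ∃ s : ℝ, s = (⟪p, v⟫_ℝ - β) / ‖a‖ ^ 2 := ⟨_, rfl⟩
      have hs0 : s ≠ 0 := by
        rw [hs]
        exact div_ne_zero (sub_ne_zero.mpr hne) hA.ne'
      have hp' : ⟪p - (2 * s) • a, u⟫_ℝ = 0 := by
        rw [inner_sub_left, inner_smul_left, hp, hau]
        simp
      refine ⟨shear u (p - (2 * s) • a) B, shear_body u _ hp' B hB, ?_, ?_, ?_⟩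
      · refine shear_ne u p _ hu hp hp' ?_ B hB
        intro h
        have h1 : (2 * s) • a = 0 := by
          have := sub_eq_self.mp h.symm
          exact this
        rcases smul_eq_zero.mp h1 with h2 | h2
        · exact hs0 (by linarith)
        · exact h0 h2
      · rw [xray_shear u _ hp', xray_shear u _ hp]
      · have h1 : ⟪p, a + β • u⟫_ℝ = β + s * ‖a‖ ^ 2 := by
          rw [← hva, hs]
          field_simp
          ring
        have h2 := xray_reflect u a p β s hu h0 hau h1 B hrev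
        rw [← hva] at h2
        exact h2
    · refine ⟨((β + 1) / ‖a‖ ^ 2) • a, ?_, ?_⟩
      · rw [inner_smul_left, hau]; simp
      · rw [hpv _ (by rw [inner_smul_left, hau]; simp), inner_smul_left,
          real_inner_self_eq_norm_sq]
        simp only [conj_trivial]
        rw [div_mul_cancel₀ _ hA.ne']
        linarith

end Pool.Agent.Results.MP_5df5df_gt.BodiesOfRevolution
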