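import Pool.Agent.Y563.XR.G

set_option autoImplicit false

/-!
# Ellipsoids: verification by two X-rays, and failure of all two-step procedures

An ellipsoid in `E^d`, `d ≥ 2`, is determined among all convex bodies by its X-rays in two
directions if and only if the directions are conjugate with respect to the ellipsoid. Hence every
ellipsoid can be verified by two X-rays, the first of them in a prescribed direction. But for every
procedure that chooses the second direction from the first X-ray there is a hyperplane such that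
the procedure fails for all sheared balls (which have the same first X-ray) with parameters outside
of the hyperplane.
-/

open MeasureTheory Set
open scoped InnerProductSpace ENNReal

namespace Pool.Agent.Results.MP_5df5df_gt.ConjugateDirections

open Pool.Agent.Y563.XR

/-- Let `d ≥ 2`. -/
theorem result (d : ℕ) (hd : 2 ≤ d) :
    -- (1) an ellipsoid is determined by its X-rays in the directions `u`, `v` if and only if
    -- these directions are conjugate
    (∀ (T : E d ≃L[ℝ] E d) (c u v : E d), ‖u‖ = 1 → ‖v‖ = 1 →
      IsBody (Ellipsoid T c) ∧ (Determined u v (Ellipsoid T c) ↔ ⟪T u, T v⟫_ℝ = 0)) ∧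
    -- (2) every ellipsoid is verified by two X-rays, the first one in a prescribed direction
    (∀ (T : E d ≃L[ℝ] E d) (c u : E d), ‖u‖ = 1 → ∃ v : E d, ‖v‖ = 1 ∧
      Determined u v (Ellipsoid T c)) ∧
    -- (3) whatever the first direction `u` and the rule `F` for the second direction: the sheared
    -- balls have the same first X-ray and the same second direction `v`, they are determined only
    -- if the parameter lies on a proper affine subspace, although each of them is determined by its
    -- X-rays in the direction `u` and in some other direction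
    (∀ u : E d, ‖u‖ = 1 → ∀ F : (E d → ℝ≥0∞) → E d, (∀ f, ‖F f‖ = 1) → ∃ v : E d, ‖v‖ = 1 ∧
      (∀ p : E d, ⟪p, u⟫_ℝ = 0 → IsBody (ell u p) ∧ F (xray u (ell u p)) = v ∧
        (Determined u (F (xray u (ell u p))) (ell u p) ↔ ⟪p, v⟫_ℝ = ⟪u, v⟫_ℝ) ∧
        ∃ v' : E d, ‖v'‖ = 1 ∧ Determined u v' (ell u p)) ∧
      ∃ p : E d, ⟪p, u⟫_ℝ = 0 ∧ ⟪p, v⟫_ℝ ≠ ⟪u, v⟫_ℝ) := by
  refine ⟨fun T c u v hu hv => ⟨isBody_ellipsoid T c, criterion hd T c hu hv⟩,
    fun T c u hu => ?_, fun u hu F hF => ?_⟩
  · obtain ⟨e, he, heu⟩ := exists_perp hd (T u)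
    have hz : T.symm e ≠ 0 := by
      intro h
      have : e = 0 := by rwa [map_eq_zero_iff T.symm T.symm.injective] at h
      rw [this, norm_zero] at he
      exact zero_ne_one he
    have hn : ‖T.symm e‖ ≠ 0 := norm_ne_zero_iff.2 hz
    have hv : ‖‖T.symm e‖⁻¹ • T.symm e‖ = 1 := by
      rw [norm_smul, norm_inv, norm_norm, inv_mul_cancel₀ hn]
    refine ⟨‖T.symm e‖⁻¹ • T.symm e, hv, (criterion hd T c hu hv).2 ?_⟩
    rw [map_smul, ContinuousLinearEquiv.apply_symm_apply, inner_smul_right, real_inner_comm, heu,
      mul_zero]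
  · have huu : ⟪u, u⟫_ℝ = 1 := by rw [real_inner_self_eq_norm_sq, hu]; norm_num
    have hX : ∀ p : E d, ⟪p, u⟫_ℝ = 0 → xray u (ell u p) = xray u (ell u 0) := by
      intro p hp
      funext x
      exact xray_u u p hu hp x
    refine ⟨F (xray u (ell u 0)), hF _, fun p hp => ?_, ?_⟩
    · have hB := ell_isBody u p hu hp
      rw [hX p hp]
      refine ⟨hB, rfl, ⟨fun h => ?_, fun h => ?_⟩, ?_⟩
      · by_contra hc
        obtain ⟨p', hp', hne, h1, h2⟩ := exists_other hd hu (hF _) hp hc
        exact hne (h _ (ell_isBody u p' hu hp') h1 h2)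
      · intro K' hK' h1 h2
        exact unique_ell hu (hF _) hp h hB hK' h1 h2
      · obtain ⟨v', hv', hc⟩ := exists_conj hd hu hp
        exact ⟨v', hv', fun K' hK' h1 h2 => unique_ell hu hv' hp hc hB hK' h1 h2⟩
    · set v := F (xray u (ell u 0)) with hv
      have hvn : ‖v‖ = 1 := hF _
      by_cases h : ⟪u, v⟫_ℝ = 0
      · refine ⟨v, by rw [real_inner_comm]; exact h, ?_⟩
        rw [h, real_inner_self_eq_norm_sq, hvn]
        norm_num
      · exact ⟨0, inner_zero_left _, by rw [inner_zero_left]; exact fun h' => h h'.symm⟩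

end Pool.Agent.Results.MP_5df5df_gt.ConjugateDirections
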