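import Pool.Agent.Y227.XR.Neg

set_option autoImplicit false

open MeasureTheory Set
open scoped InnerProductSpace ENNReal

namespace Pool.Agent.Results.MP_5df5df_gt.EllipsoidsThreeSteps

open Pool.Agent.Results.MP_5df5df_gt.TwoSuccessiveFail Pool.Agent.Y227.XR

/-- **X-rays of ellipsoids among all convex bodies of 3-space.**  `elp A c` is the solid
ellipsoid `{x | ‖A (x - c)‖ ≤ 1}`.

1. An ellipsoid is determined, among all convex bodies, by its X-rays in two non-parallel
   directions `u`, `v` if and only if `u` and `v` are conjugate with respect to it.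
2. Hence every ellipsoid can be verified by two X-rays (the first direction being arbitrary), and
   none by one.
3. No two-step procedure successively determines all ellipsoids, even if they are only to be
   distinguished from each other.
4. Three successive X-rays determine every ellipsoid among all convex bodies, and the first two
   directions can be any two non-parallel directions fixed in advance. -/
theorem result :
    (∀ (A : E3 ≃L[ℝ] E3) (c u v : E3), ‖u‖ = 1 → ‖v‖ = 1 → (∀ t : ℝ, v ≠ t • u) →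
      ((∀ K, IsBody K → xray u K = xray u (elp A c) → xray v K = xray v (elp A c) →
        K = elp A c) ↔ ⟪A u, A v⟫_ℝ = 0)) ∧
    (∀ (A : E3 ≃L[ℝ] E3) (c u : E3), ‖u‖ = 1 →
      (∃ v : E3, ‖v‖ = 1 ∧ ∀ K, IsBody K → xray u K = xray u (elp A c) →
        xray v K = xray v (elp A c) → K = elp A c) ∧
      ∃ K, IsBody K ∧ K ≠ elp A c ∧ xray u K = xray u (elp A c)) ∧
    (∀ u : E3, ‖u‖ = 1 → ∀ F : (E3 → ℝ≥0∞) → E3, (∀ f, ‖F f‖ = 1) →
      ∃ A B : E3 ≃L[ℝ] E3, elp A 0 ≠ elp B 0 ∧ xray u (elp A 0) = xray u (elp B 0) ∧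
        xray (F (xray u (elp A 0))) (elp A 0) = xray (F (xray u (elp A 0))) (elp B 0)) ∧
    (∀ u v : E3, ‖u‖ = 1 → ‖v‖ = 1 → (∀ t : ℝ, v ≠ t • u) →
      ∃ F : (E3 → ℝ≥0∞) → (E3 → ℝ≥0∞) → E3, (∀ f g, ‖F f g‖ = 1) ∧
        ∀ (A : E3 ≃L[ℝ] E3) (c : E3) (K : Set E3), IsBody K →
          xray u K = xray u (elp A c) → xray v K = xray v (elp A c) →
          xray (F (xray u (elp A c)) (xray v (elp A c))) K =
            xray (F (xray u (elp A c)) (xray v (elp A c))) (elp A c) → K = elp A c) := by
  refine ⟨fun A c u v hu hv hind => determined_iff A c u v hu hv hind, fun A c u hu => ⟨?_,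
    one_fails A c u hu⟩, fun u hu F hF => two_steps_fail u hu F hF,
    fun u v hu hv hind => three_steps u v hu hv hind⟩
  obtain ⟨v, hv, h1, -⟩ := exists_conj A A u u
  exact ⟨v, hv, fun K hK h2 h3 => conj_unique A c u v hu hv h1 K hK h2 h3⟩

end Pool.Agent.Results.MP_5df5df_gt.EllipsoidsThreeSteps
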